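import Pool.Agent.TH992.V.LT4

/-!
Critical bond percolation on the square lattice: the tails of the volume of the largest cluster of
a box.
-/

set_option autoImplicit false

namespace Pool.Agent.Results.MP_6bd702_pr.ClusterVolumeTails

open MeasureTheory

/-- The square lattice: two points of `ℤ²` are adjacent when they differ by one in exactly one
coordinate. -/
def Z2 : SimpleGraph (ℤ × ℤ) where
  Adj u v := |u.1 - v.1| + |u.2 - v.2| = 1
  symm := ⟨fun u v h => by rw [abs_sub_comm v.1, abs_sub_comm v.2]; exact h⟩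
  loopless := ⟨fun u h => by simp at h⟩

/-- Critical bond percolation: every edge of the square lattice is open (`true`) with
probability `1/2`, independently of the other edges. -/
noncomputable def crit : Measure (Z2.edgeSet → Bool) :=
  Measure.infinitePi (fun _ => ProbabilityTheory.bernoulliMeasure true false
    ⟨1/2, by norm_num, by norm_num⟩)

/-- The graph of the open edges. -/
def openGraph (ω : Z2.edgeSet → Bool) : SimpleGraph (ℤ × ℤ) :=
  SimpleGraph.fromEdgeSet {e | ∃ h : e ∈ Z2.edgeSet, ω ⟨e, h⟩ = true}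

/-- The box `[-n, n]²`. -/
noncomputable def box (n : ℕ) : Finset (ℤ × ℤ) := Finset.Icc (-(n : ℤ)) n ×ˢ Finset.Icc (-(n : ℤ)) n

/-- The graph of the open edges with both ends in the box. -/
def boxGraph (n : ℕ) (ω : Z2.edgeSet → Bool) : SimpleGraph (ℤ × ℤ) where
  Adj u v := (openGraph ω).Adj u v ∧ u ∈ box n ∧ v ∈ box n
  symm := ⟨fun _ _ h => ⟨h.1.symm, h.2.2, h.2.1⟩⟩
  loopless := ⟨fun _ h => (openGraph ω).loopless.irrefl _ h.1⟩

/-- The number of vertices of the largest open cluster of the box. -/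
noncomputable def maxCluster (n : ℕ) (ω : Z2.edgeSet → Bool) : ℕ :=
  (box n).sup fun v => Set.ncard {u | (boxGraph n ω).Reachable v u}

/-- Both tails of the number of vertices of the largest cluster, on the full range. -/
theorem result : ∃ c C : ℝ, 0 < c ∧ 0 < C ∧ ∀ n : ℕ, 1 ≤ n →
    (∀ x : ℝ, 0 ≤ x → crit.real {ω | x * (n : ℝ) ^ (91/48 : ℝ) ≤ (maxCluster n ω : ℝ)} ≤
      C * Real.exp (-(c * x ^ (96/5 : ℝ)))) ∧
    (∀ x : ℝ, 1 ≤ x → x * (n : ℝ) ^ (91/48 : ℝ) ≤ (2 * (n : ℝ) + 1) ^ 2 →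
      Real.exp (-(C * x ^ (96/5 : ℝ))) ≤
      crit.real {ω | x * (n : ℝ) ^ (91/48 : ℝ) ≤ (maxCluster n ω : ℝ)}) ∧
    (∀ y : ℝ, (n : ℝ) ^ (-(91/48) : ℝ) ≤ y → y ≤ 1 →
      Real.exp (-(C * y ^ (-(96/91) : ℝ))) ≤
        crit.real {ω | (maxCluster n ω : ℝ) ≤ y * (n : ℝ) ^ (91/48 : ℝ)} ∧
      crit.real {ω | (maxCluster n ω : ℝ) ≤ y * (n : ℝ) ^ (91/48 : ℝ)} ≤
        C * Real.exp (-(c * y ^ (-(96/91) : ℝ)))) ∧
    ∀ ω, 1 ≤ maxCluster n ω ∧ maxCluster n ω ≤ (2 * n + 1) ^ 2 :=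
  TH992.V.main2

end Pool.Agent.Results.MP_6bd702_pr.ClusterVolumeTails
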