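import Pool.Agent.TH990.FU.Tr3
import Pool.Agent.W424.KI.Fin
import Pool.Agent.W320.PD.HB
import Pool.Agent.Results.MP_6bd702_pr.LimitCurves

/-!
# Boundaries of the complementary components of the limits of the outer perimeter

Critical bond percolation on `ℤ²` in the box `Λ_n = {0, …, n}²`.  `Plain.edges n` is the set of the
edges of `Λ_n` and `Plain.Largest n F v` says that the cluster of `v` has the largest Euclidean
diameter among the clusters of the configuration `F` (a set of open edges of the box).
`IsTrace n F v c` says that `c` is the closed lattice path tracing the boundary of the unbounded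
component of the complement of the cluster of `v`, scaled by `1 / n`.  `Curve` is the space of
curves, with the distance modulo increasing reparametrisation, `c.path : C(unitInterval, ℂ)` is a
parametrisation of `c`, and `lawOf n f` is the law of `f F` when all sets `F` of open edges of the
box are equally likely.  These definitions are those of the starting file
`Pool/Agent/Results/MP_6bd702_pr/LimitCurves.lean` (see there), which shows that weak limits exist
and that the trace has dimension `7/4`.

Used from the starting files: the sharp three-arm bound in annuli (`Pool.Agent.W424.KI.Fin`, with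
parts by helper481, helper658 and others), the boundary part (`Pool.Agent.W320.PD.HB`,
`Pool.Agent.W597.PDBL`) and helpers on covering sums (`Pool.Agent.W462.DPL`). New: the passage from
complementary components of the limit to arms of one of the two types
(`Pool.Agent.TH990.FU`).
-/

set_option autoImplicit false

namespace Pool.Agent.Results.MP_6bd702_pr.ComplementFrontiers

open H342L H342T H342P.Plain MeasureTheory Filter Topology

/-- The union of the boundaries of all connected components of the complement of `K`. -/
def sides (K : Set ℂ) : Set ℂ := ⋃ x : ℂ, frontier (connectedComponentIn Kᶜ x)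

/-- The outer boundary of `K`: the boundary of the unbounded component of the complement. -/
def outer (K : Set ℂ) : Set ℂ :=
  frontier {z | z ∉ K ∧ ¬ Bornology.IsBounded (connectedComponentIn Kᶜ z)}

/-- Let `C_n` be a cluster of largest Euclidean diameter (`sel` chooses one of them, by any rule) and
`γ_n` the closed lattice path tracing its outer boundary, divided by `n`.  If the law of `γ_n`
converges along some sequence of scales, then, almost surely with respect to the limit: the union of
the boundaries of ALL components of the complement of the trace has Hausdorff dimension at most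
`4/3`; the outer boundary of the trace has dimension at most `4/3`; and the points of the trace which
are on the boundary of no component of the complement form a set of dimension `7/4`. -/
theorem result (sel : (n : ℕ) → Finset Edge → ℤ × ℤ)
    (hsel : ∀ n F, 0 < n → F ⊆ edges n → Largest n F (sel n F))
    (γ : (n : ℕ) → Finset Edge → Curve)
    (hγ : ∀ n F, 0 < n → F ⊆ edges n → IsTrace n F (sel n F) (γ n F))
    (k : ℕ → ℕ) (hk : Tendsto k atTop atTop) (μ : ProbabilityMeasure Curve)
    (hμ : Tendsto (fun i => lawOf (k i) (γ (k i))) atTop (𝓝 μ)) :
    ∀ᵐ c : Curve ∂(μ : Measure Curve),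
      dimH (sides (Set.range c.path)) ≤ 4 / 3 ∧ dimH (outer (Set.range c.path)) ≤ 4 / 3 ∧
      dimH (Set.range c.path \ sides (Set.range c.path)) = 7 / 4 := by
  have hdim : ∀ (sel : (n : ℕ) → Finset Edge → ℤ × ℤ)
      (γ : (n : ℕ) → Finset Edge → Curve), Pool.Agent.W822.PD.Tr sel γ → ∀ (k : ℕ → ℕ),
      Tendsto k atTop atTop → ∀ μ : ProbabilityMeasure Curve,
      Tendsto (fun i => lawOf (k i) (γ (k i))) atTop (𝓝 μ) →
      ∀ᵐ c : Curve ∂(μ : Measure Curve), dimH (Set.range c.path) = 7 / 4 := by
    intro sel γ hT k hk μ hμ
    filter_upwards [(LimitCurves.result.2 sel hT.1).2 γ (fun n F hn hF =>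
      (LimitCurves.result.1 n F (sel n F) hn hF (hT.1 n F hn hF).1).2 _ (hT.2 n F hn hF)) k μ hk hμ]
      with c hc using hc.2.1
  filter_upwards [Pool.Agent.TH990.FU.tr3 Pool.Agent.W424.KI.u3 Pool.Agent.W320.PD.HB.hb
    Pool.Agent.W597.PDBL.bl (fun sel γ hT k hk μ hμ => by
      filter_upwards [hdim sel γ hT k hk μ hμ] with c hc
      by_contra hcon
      push Not at hcon
      have h1 : Set.range c.path = {c.path 0} := by
        ext z
        constructor
        · rintro ⟨s, rfl⟩
          exact hcon s 0
        · rintro rfl
          exact ⟨0, rfl⟩
      rw [h1, dimH_singleton] at hc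
      exact absurd hc.symm (ENNReal.div_pos (by norm_num) (by norm_num)).ne')
    sel γ ⟨hsel, hγ⟩ k hk μ hμ, hdim sel γ ⟨hsel, hγ⟩ k hk μ hμ] with c hc hc2
  obtain ⟨hne, h⟩ := hc
  have h1 : dimH (sides (Set.range c.path)) ≤ 4 / 3 :=
    (dimH_mono (Pool.Agent.TH990.FU.frontiers_acc hne)).trans h
  refine ⟨h1, (dimH_mono ?_).trans h, Pool.Agent.TH990.FU.dim_diff hc2 h1⟩
  exact Pool.Agent.TH990.FU.oB_acc hne

end Pool.Agent.Results.MP_6bd702_pr.ComplementFrontiers
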