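import Pool.Agent.TH990.FU.FixT
import Pool.Agent.W822.PD.Fin
import Pool.Agent.W424.KI.Fin
import Pool.Agent.W320.PD.HB
import Pool.Agent.W597.PDBL
import Pool.Agent.Results.MP_6bd702_pr.LimitCurves

/-!
# The limits of the outer perimeter in a fixed set

Critical bond percolation on `ℤ²` in the box `Λ_n = {0, …, n}²`.  `Plain.edges n` is the set of the
edges of `Λ_n` and `Plain.Largest n F v` says that the cluster of `v` has the largest Euclidean
diameter among the clusters of the configuration `F` (a set of open edges of the box).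
`IsTrace n F v c` says that `c` is the closed lattice path tracing the boundary of the unbounded
component of the complement of the cluster of `v`, scaled by `1 / n`.  `Curve` is the space of
curves, with the distance modulo increasing reparametrisation, `c.path : C(unitInterval, ℂ)` is a
parametrisation of `c`, and `lawOf n f` is the law of `f F` when all sets `F` of open edges of the
box are equally likely.  These definitions are those of the starting file
`Pool/Agent/Results/MP_6bd702_pr/LimitCurves.lean` (see there), which shows that weak limits exist.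

For every weak limit and every fixed set `T` of the open unit square (no measurability is assumed),
almost surely:
* the trace of the curve meets `T` in a set of dimension at most `dimH T - 1/4`, and does not meet
  `T` if `dimH T < 1/4`;
* the double points in `T` form a set of dimension at most `dimH T - 5/4`, and there are none if the
  `5/4`-dimensional Hausdorff measure of `T` is zero;
* the points of `T` on the boundary of some component of the complement of the trace, and in
  particular the points of `T` on the outer boundary, form a set of dimension at most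
  `dimH T - 2/3`, and there are none if the `2/3`-dimensional Hausdorff measure of `T` is zero.
(Differences in `[0, ∞]` are truncated at `0`.) For instance, on a fixed line or Lipschitz curve
inside the square there is almost surely no double point, the trace meets it in a set of dimension
at most `3/4` and the outer boundary in a set of dimension at most `1/3`.

Used from the starting files: the sharp three- and four-arm bounds in annuli
(`Pool.Agent.W424.KI.Fin`, `Pool.Agent.W347.DPAA`, `Pool.Agent.W571.DPad`), the two-arm bound for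
the perimeter (`H342L.t_HIT`), the deterministic part for double points (`Pool.Agent.W500.PD.UO`,
`Pool.Agent.W978.PD.UL`), the boundary part for non-degeneracy (`LimitCurves`).
-/

set_option autoImplicit false

namespace Pool.Agent.Results.MP_6bd702_pr.PerimeterFixedSets

open H342L H342T H342P.Plain MeasureTheory Filter Topology
open scoped ENNReal NNReal

/-- The double points of the closed curve `c`: the points `z` which it visits at two times `s < t`
without being constant on one of the two arcs `[s, t]`, `[0, s] ∪ [t, 1]` between them. -/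
def doublePoints (c : Curve) : Set ℂ :=
  {z | ∃ s t : unitInterval, s < t ∧ c.path s = z ∧ c.path t = z ∧
    (∃ u : unitInterval, (s < u ∧ u < t) ∧ c.path u ≠ z) ∧
    ∃ u : unitInterval, (u < s ∨ t < u) ∧ c.path u ≠ z}

/-- The union of the boundaries of all connected components of the complement of `K`. -/
def sides (K : Set ℂ) : Set ℂ := ⋃ x : ℂ, frontier (connectedComponentIn Kᶜ x)

/-- The outer boundary of `K`: the boundary of the unbounded component of the complement. -/
def outer (K : Set ℂ) : Set ℂ :=
  frontier {z | z ∉ K ∧ ¬ Bornology.IsBounded (connectedComponentIn Kᶜ z)}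

/-- The open unit square. -/
def openSquare : Set ℂ := {z | 0 < z.re ∧ z.re < 1 ∧ 0 < z.im ∧ z.im < 1}

theorem ofR (a b : ℝ) (hb : 0 < b) : ENNReal.ofReal (a / b) = ENNReal.ofReal a / ENNReal.ofReal b :=
  ENNReal.ofReal_div_of_pos hb

theorem e54 : ENNReal.ofReal (5 / 4) = 5 / 4 := by
  rw [ofR _ _ (by norm_num)]; norm_num

theorem e23 : ENNReal.ofReal (2 / 3) = 2 / 3 := by
  rw [ofR _ _ (by norm_num)]; norm_num

theorem e14 : ENNReal.ofReal (1 / 4) = 1 / 4 := by
  rw [ofR _ _ (by norm_num)]; norm_num

theorem lip_dim {K : ℝ≥0} {f : ℝ → ℂ} (hf : LipschitzWith K f) : dimH (Set.range f) ≤ 1 := by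
  have h := hf.dimH_range_le
  rwa [Real.dimH_univ] at h

theorem lip_null {K : ℝ≥0} {f : ℝ → ℂ} (hf : LipschitzWith K f) : μH[5 / 4] (Set.range f) = 0 := by
  have h2 : dimH (Set.range f) < ((5 / 4 : ℝ≥0) : ℝ≥0∞) := by
    refine lt_of_le_of_lt (lip_dim hf) ?_
    rw [← ENNReal.coe_one, ENNReal.coe_lt_coe]
    norm_num
  have h3 := hausdorffMeasure_of_dimH_lt h2
  have e : (((5 / 4 : ℝ≥0) : ℝ)) = 5 / 4 := by push_cast; ring
  rwa [e] at h3

theorem e13 : (1 : ℝ≥0∞) - 2 / 3 = 1 / 3 := by
  rw [← e23, ← ENNReal.ofReal_one, ← ENNReal.ofReal_sub _ (by norm_num),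
    show (1 : ℝ) - 2 / 3 = 1 / 3 by norm_num, ofR _ _ (by norm_num)]
  norm_num

theorem e34 : (1 : ℝ≥0∞) - 1 / 4 = 3 / 4 := by
  rw [← e14, ← ENNReal.ofReal_one, ← ENNReal.ofReal_sub _ (by norm_num),
    show (1 : ℝ) - 1 / 4 = 3 / 4 by norm_num, ofR _ _ (by norm_num)]
  norm_num

/-- Let `C_n` be a cluster of largest Euclidean diameter (`sel` chooses one of them, by any rule) and
`γ_n` the closed lattice path tracing its outer boundary, divided by `n`.  If the law of `γ_n`
converges along some sequence of scales, then for every set `T`, almost surely with respect to the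
limit, the bounds for the trace, the double points, the boundaries of all complementary components
and the outer boundary in `T` hold; and so do those for the range of every fixed Lipschitz curve. -/
theorem result (sel : (n : ℕ) → Finset Edge → ℤ × ℤ)
    (hsel : ∀ n F, 0 < n → F ⊆ edges n → Largest n F (sel n F))
    (γ : (n : ℕ) → Finset Edge → Curve)
    (hγ : ∀ n F, 0 < n → F ⊆ edges n → IsTrace n F (sel n F) (γ n F))
    (k : ℕ → ℕ) (hk : Tendsto k atTop atTop) (μ : ProbabilityMeasure Curve)
    (hμ : Tendsto (fun i => lawOf (k i) (γ (k i))) atTop (𝓝 μ)) :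
    (∀ T : Set ℂ, T ⊆ openSquare → ∀ᵐ c : Curve ∂(μ : Measure Curve),
      dimH (Set.range c.path ∩ T) ≤ dimH T - 1 / 4 ∧
      (dimH T < 1 / 4 → Set.range c.path ∩ T = ∅) ∧
      dimH (doublePoints c ∩ T) ≤ dimH T - 5 / 4 ∧
      (μH[5 / 4] T = 0 → doublePoints c ∩ T = ∅) ∧
      dimH (sides (Set.range c.path) ∩ T) ≤ dimH T - 2 / 3 ∧
      (μH[2 / 3] T = 0 → sides (Set.range c.path) ∩ T = ∅) ∧
      dimH (outer (Set.range c.path) ∩ T) ≤ dimH T - 2 / 3 ∧
      (μH[2 / 3] T = 0 → outer (Set.range c.path) ∩ T = ∅)) ∧
    (∀ (K : ℝ≥0) (f : ℝ → ℂ), LipschitzWith K f → ∀ᵐ c : Curve ∂(μ : Measure Curve),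
      dimH (Set.range c.path ∩ Set.range f ∩ openSquare) ≤ 3 / 4 ∧
      doublePoints c ∩ Set.range f ∩ openSquare = ∅ ∧
      dimH (sides (Set.range c.path) ∩ Set.range f ∩ openSquare) ≤ 1 / 3 ∧
      dimH (outer (Set.range c.path) ∩ Set.range f ∩ openSquare) ≤ 1 / 3) := by
  have hT : Pool.Agent.W822.PD.Tr sel γ := ⟨hsel, hγ⟩
  have hdim : ∀ᵐ c : Curve ∂(μ : Measure Curve), dimH (Set.range c.path) = 7 / 4 := by
    filter_upwards [(LimitCurves.result.2 sel hT.1).2 γ (fun n F hn hF =>
      (LimitCurves.result.1 n F (sel n F) hn hF (hT.1 n F hn hF).1).2 _ (hT.2 n F hn hF)) k μ hk hμ]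
      with c hc using hc.2.1
  have key : ∀ T : Set ℂ, ∀ᵐ c : Curve ∂(μ : Measure Curve),
      dimH (Set.range c.path ∩ T ∩ openSquare) ≤ dimH T - 1 / 4 ∧
      (dimH T < 1 / 4 → Set.range c.path ∩ T ∩ openSquare = ∅) ∧
      dimH (doublePoints c ∩ T ∩ openSquare) ≤ dimH T - 5 / 4 ∧
      (μH[5 / 4] T = 0 → doublePoints c ∩ T ∩ openSquare = ∅) ∧
      dimH (sides (Set.range c.path) ∩ T ∩ openSquare) ≤ dimH T - 2 / 3 ∧
      (μH[2 / 3] T = 0 → sides (Set.range c.path) ∩ T ∩ openSquare = ∅) ∧
      dimH (outer (Set.range c.path) ∩ T ∩ openSquare) ≤ dimH T - 2 / 3 ∧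
      (μH[2 / 3] T = 0 → outer (Set.range c.path) ∩ T ∩ openSquare = ∅) := by
    intro T
    filter_upwards [hdim, Pool.Agent.TH990.FU.trT hT hk hμ T,
      Pool.Agent.TH990.FU.dpT hT hk hμ T,
      Pool.Agent.TH990.FU.acT Pool.Agent.W424.KI.u3 hT hk hμ T] with c hc ht hd ha
    rw [e14] at ht
    rw [e54] at hd
    rw [e23] at ha
    have hne : ∃ s t, c.path s ≠ c.path t := by
      by_contra hcon
      push Not at hcon
      have h1 : Set.range c.path = {c.path 0} := by
        ext z
        constructor
        · rintro ⟨s, rfl⟩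
          exact hcon s 0
        · rintro rfl
          exact ⟨0, rfl⟩
      rw [h1, dimH_singleton] at hc
      exact absurd hc.symm (ENNReal.div_pos (by norm_num) (by norm_num)).ne'
    have hs1 : doublePoints c ∩ T ∩ openSquare ⊆
        (⋃ i : ℕ, Pool.Agent.W822.PD.DPc (1 / ((i:ℝ) + 1)) c.path) ∩ T ∩ Pool.Agent.W822.PD.Sq :=
      Set.inter_subset_inter_left _ (Set.inter_subset_inter_left _
        (Pool.Agent.W822.PD.Dbl_sub c.path))
    have hs2 : sides (Set.range c.path) ∩ T ∩ openSquare ⊆
        (⋃ i : ℕ, Pool.Agent.TH990.FU.Acc (1 / ((i:ℝ) + 1)) c.path) ∩ T ∩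
          Pool.Agent.W822.PD.Sq :=
      Set.inter_subset_inter_left _ (Set.inter_subset_inter_left _
        (Pool.Agent.TH990.FU.frontiers_acc hne))
    have hs3 : outer (Set.range c.path) ∩ T ∩ openSquare ⊆
        (⋃ i : ℕ, Pool.Agent.TH990.FU.Acc (1 / ((i:ℝ) + 1)) c.path) ∩ T ∩
          Pool.Agent.W822.PD.Sq :=
      Set.inter_subset_inter_left _ (Set.inter_subset_inter_left _
        (Pool.Agent.TH990.FU.oB_acc hne))
    exact ⟨ht.1, ht.2, (dimH_mono hs1).trans hd.1, fun h => Set.subset_empty_iff.1
      (hs1.trans (hd.2 h).le), (dimH_mono hs2).trans ha.1,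
      fun h => Set.subset_empty_iff.1 (hs2.trans (ha.2 h).le), (dimH_mono hs3).trans ha.1,
      fun h => Set.subset_empty_iff.1 (hs3.trans (ha.2 h).le)⟩
  constructor
  · intro T hTs
    filter_upwards [key T] with c hc
    have e : ∀ A : Set ℂ, A ∩ T ∩ openSquare = A ∩ T := by
      intro A
      rw [Set.inter_assoc, Set.inter_eq_left.2 hTs]
    rw [e, e, e, e] at hc
    exact hc
  · intro K f hf
    filter_upwards [key (Set.range f)] with c hc
    obtain ⟨h1, -, -, h2, h3, -, h4, -⟩ := hc
    have h5 := lip_dim hf
    refine ⟨h1.trans ?_, h2 (lip_null hf), h3.trans ?_, h4.trans ?_⟩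
    · rw [← e34]
      exact tsub_le_tsub_right h5 _
    · rw [← e13]
      exact tsub_le_tsub_right h5 _
    · rw [← e13]
      exact tsub_le_tsub_right h5 _

end Pool.Agent.Results.MP_6bd702_pr.PerimeterFixedSets
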