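import Pool.Agent.TH494.PT.Fin2
import Pool.Agent.Results.MP_6bd702_pr.PerimeterExponent

/-!
# The tail of the outer perimeter of the largest critical percolation cluster

Critical bond percolation on `ℤ²` in the box `Λ_n = {0, …, n}²`: `F` is the set of open edges,
uniformly distributed on the subsets of `edges n` (`Plain.prob`).  `Plain.Largest n F v` says that
the cluster of `v` has the largest Euclidean diameter, `Plain.perimeter F v` is the number of steps
of the closed lattice path which traces the boundary of the unbounded component of the complement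
of this cluster, and `Plain.perimeterEdges F v` is the number of different edges on it.  All these
definitions are in `Pool/Agent/H342R2/Per/Plain.lean`.  The law of a function of `F` is
`H342L.lawOf` (`Pool/Agent/H342R3/Lim/Law.lean`).
-/

set_option autoImplicit false

namespace Pool.Agent.Results.MP_6bd702_pr.PerimeterTail

open H342P Filter Topology MeasureTheory

/-- The outer perimeter of the largest cluster is at least `x * n ^ (7/4)` with probability
`exp (- Θ (x ^ 8))`, uniformly in `n`, for `1 ≤ x ≤ c * n ^ (1/4)`; it is never larger than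
`C * n ^ 2`; and every subsequential limit in law of `perimeter / n ^ (7/4)` has the same tail. -/
theorem result : ∃ c C : ℝ, 0 < c ∧ 0 < C ∧
    (∀ n : ℕ, 1 ≤ n →
      (∀ F : Finset Plain.Edge, F ⊆ Plain.edges n → ∀ v : ℤ × ℤ,
        (Plain.perimeter F v : ℝ) ≤ C * (n : ℝ) ^ 2) ∧
      (∀ x : ℝ, 0 ≤ x → Plain.prob n (fun F => ∃ v, Plain.Largest n F v ∧
        x * (n : ℝ) ^ (7/4 : ℝ) ≤ (Plain.perimeter F v : ℝ)) ≤ C * Real.exp (-(c * x ^ 8))) ∧
      (∀ x : ℝ, 1 ≤ x → x ≤ c * (n : ℝ) ^ (1/4 : ℝ) →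
        Real.exp (-(C * x ^ 8)) ≤ Plain.prob n (fun F => ∀ v, Plain.Largest n F v →
          x * (n : ℝ) ^ (7/4 : ℝ) ≤ (Plain.perimeterEdges F v : ℝ)))) ∧
    (∀ sel : ℕ → Finset Plain.Edge → ℤ × ℤ, (∀ n F, Plain.Largest n F (sel n F)) →
      ∀ φ : ℕ → ℕ, Tendsto φ atTop atTop → ∀ μ : ProbabilityMeasure ℝ,
      Tendsto (fun i => H342L.lawOf (φ i) fun F =>
        (Plain.perimeter F (sel (φ i) F) : ℝ) / (φ i : ℝ) ^ (7/4 : ℝ)) atTop (𝓝 μ) →
      ∀ x : ℝ, 1 ≤ x →
        ENNReal.ofReal (Real.exp (-(C * x ^ 8))) ≤ (μ : Measure ℝ) {y | x ≤ y} ∧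
        (μ : Measure ℝ) {y | x ≤ y} ≤ ENNReal.ofReal (C * Real.exp (-(c * x ^ 8)))) := by
  obtain ⟨⟨c, hc, hL⟩, C, hC, hU⟩ := PerimeterExponent.inputs
  obtain ⟨c1, C1, h1, h2, hup⟩ := TH494.PT.fin_up hC hU
  obtain ⟨c2, K2, h3, h4, hlow⟩ := TH494.PT.fin_low hc hL hC hU
  have hm1 : min (c1 / 256) c2 ≤ c1 / 256 := min_le_left _ _
  have hm2 : min (c1 / 256) c2 ≤ c2 := min_le_right _ _
  have hM1 : C1 ≤ max C1 (max K2 16) := le_max_left _ _
  have hM2 : K2 ≤ max C1 (max K2 16) := (le_max_left _ _).trans (le_max_right _ _)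
  have hM3 : 16 ≤ max C1 (max K2 16) := (le_max_right _ _).trans (le_max_right _ _)
  have hm0 : 0 < min (c1 / 256) c2 := lt_min (by positivity) h3
  refine ⟨min (c1 / 256) c2, max C1 (max K2 16), hm0, lt_of_lt_of_le h2 hM1, fun n hn =>
    ⟨fun F hF v => ?_, fun x hx => ?_, fun x hx hxn => ?_⟩, fun sel hsel φ hφ μ hμ x hx => ?_⟩
  · exact (TH494.PT.fin_max n hn F hF v).trans (mul_le_mul_of_nonneg_right hM3 (by positivity))
  · refine (hup n hn x hx).trans (mul_le_mul hM1 (Real.exp_le_exp.mpr ?_) (Real.exp_nonneg _)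
      (h2.le.trans hM1))
    have h5 : min (c1 / 256) c2 * x ^ 8 ≤ c1 * x ^ 8 :=
      mul_le_mul_of_nonneg_right (by linarith) (by positivity)
    linarith
  · refine le_trans (Real.exp_le_exp.mpr ?_) (hlow n hn x hx (hxn.trans
      (mul_le_mul_of_nonneg_right hm2 (by positivity))))
    have h5 : K2 * x ^ 8 ≤ max C1 (max K2 16) * x ^ 8 :=
      mul_le_mul_of_nonneg_right hM2 (by positivity)
    linarith
  · obtain ⟨g1, g2⟩ := TH494.PT.fin_lim h3 hup hlow hsel hφ hμ hx
    constructor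
    · refine le_trans (ENNReal.ofReal_le_ofReal (Real.exp_le_exp.mpr ?_)) g1
      have h5 : K2 * x ^ 8 ≤ max C1 (max K2 16) * x ^ 8 :=
        mul_le_mul_of_nonneg_right hM2 (by positivity)
      linarith
    · refine g2.trans (ENNReal.ofReal_le_ofReal ?_)
      refine mul_le_mul hM1 (Real.exp_le_exp.mpr ?_) (Real.exp_nonneg _) (h2.le.trans hM1)
      have h5 : min (c1 / 256) c2 * x ^ 8 ≤ c1 / 256 * x ^ 8 :=
        mul_le_mul_of_nonneg_right hm1 (by positivity)
      linarith

end Pool.Agent.Results.MP_6bd702_pr.PerimeterTail
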